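import Mathlib
import Pool.Agent.Q154.MS.Dens

/-!
# MP_91b3c5_co, Q1: the upper density threshold with a shift

For all integers `l > m ≥ 1`, every set `A` of upper density greater than `l / (l + m)` contains
`{m b₁ + l b₂ + t : b₁ ≠ b₂ in B}` for some infinite set `B` of positive integers and some `t ≥ 1`.
-/

set_option autoImplicit false

open Filter Topology

namespace Pool.Agent.Results.MP_91b3c5_co.ShiftedThreshold

open Pool.Agent.Q154.MS

/-- Q1, affirmatively, for every pair `l > m ≥ 1`. -/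
theorem result (l m : ℕ) (hm : 1 ≤ m) (hml : m < l) (A : Set ℕ)
    (hA : (l : ℝ) / (l + m) < limsup (fun N : ℕ => ((A ∩ Set.Icc 1 N).ncard : ℝ) / N) atTop) :
    ∃ (B : Set ℕ) (t : ℕ), B.Infinite ∧ (∀ b ∈ B, 1 ≤ b) ∧ 1 ≤ t ∧
      ∀ b₁ ∈ B, ∀ b₂ ∈ B, b₁ ≠ b₂ → m * b₁ + l * b₂ + t ∈ A := by
  have hl : 0 < l := by omega
  have hm' : (0 : ℝ) < m := by exact_mod_cast hm
  have hl' : (0 : ℝ) < l := by exact_mod_cast hl
  obtain ⟨κ, K, hκ, hX⟩ := upper_bound A Aᶜ (fun x hx => hx) _ hA l m hm hml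
  have h1 : (1 - (l : ℝ) / (l + m)) * (l + m) / m = 1 := by
    field_simp
    ring
  rw [h1] at hκ
  obtain ⟨t, _, b, hb1, _, hb3⟩ := core l m hl hm Aᶜ 1 κ K one_pos hκ hX (Finset.range (l + m))
    (Finset.Subset.refl _) (by rw [Finset.card_range, mul_one]; push_cast; exact le_refl _)
  exact shift_pos l m hl A t b hb1 (fun i j hij => not_not.1 (hb3 i j hij))

end Pool.Agent.Results.MP_91b3c5_co.ShiftedThreshold
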