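import Mathlib
import Pool.Agent.Q154.MS.Dens

/-!
# MP_91b3c5_co, Q2: the upper density threshold without a shift

For all integers `l > m ≥ 1`, every set `A` of upper density greater than `1 - m / (l + m)²` contains
`{m b₁ + l b₂ : b₁ ≠ b₂ in B}` for some infinite set `B` of positive integers.
-/

set_option autoImplicit false

open Filter Topology

namespace Pool.Agent.Results.MP_91b3c5_co.UnshiftedThreshold

open Pool.Agent.Q154.MS

/-- Q2, affirmatively, for every pair `l > m ≥ 1`. -/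
theorem result (l m : ℕ) (hm : 1 ≤ m) (hml : m < l) (A : Set ℕ)
    (hA : 1 - (m : ℝ) / (l + m) ^ 2 <
      limsup (fun N : ℕ => ((A ∩ Set.Icc 1 N).ncard : ℝ) / N) atTop) :
    ∃ B : Set ℕ, B.Infinite ∧ (∀ b ∈ B, 1 ≤ b) ∧
      ∀ b₁ ∈ B, ∀ b₂ ∈ B, b₁ ≠ b₂ → m * b₁ + l * b₂ ∈ A := by
  have hl : 0 < l := by omega
  have hm' : (0 : ℝ) < m := by exact_mod_cast hm
  have hl' : (0 : ℝ) < l := by exact_mod_cast hl
  obtain ⟨κ, K, hκ, hX⟩ :=
    upper_bound A {n : ℕ | (l + m) ∣ n ∧ n ∉ A} (fun x hx => hx.2) _ hA l m hm hml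
  have h1 : (1 - (1 - (m : ℝ) / (l + m) ^ 2)) * (l + m) / m = 1 / (l + m) := by
    field_simp
    ring
  rw [h1] at hκ
  obtain ⟨t, ht, b, hb1, hb2, hb3⟩ := core l m hl hm {n : ℕ | (l + m) ∣ n ∧ n ∉ A} (1 / (l + m)) κ K
    (by positivity) hκ hX {0} (by
      intro x hx
      rw [Finset.mem_singleton] at hx
      rw [Finset.mem_range]
      omega) (by
      rw [Finset.card_singleton, mul_one_div_cancel (by positivity)]
      push_cast
      exact le_refl _)
  rw [Finset.mem_singleton] at ht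
  subst ht
  exact residue_class l m hl A b hb1 hb2 hb3

end Pool.Agent.Results.MP_91b3c5_co.UnshiftedThreshold
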